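import Mathlib

set_option autoImplicit false

namespace Pool.Agent.Results.MP_5bfb0a_al.AlmostCommutes

open Set Pointwise Topology

universe u

variable {Γ : Type u} [Group Γ]

/-- A subgroup `L` of `Γ` is commensurated: `[L : L ∩ g L g⁻¹]` is finite for every `g`.
(`H.relIndex K` is the index of `H ∩ K` in `K`, with value `0` if that index is infinite.) -/
def Commensurated (L : Subgroup Γ) : Prop :=
  ∀ g : Γ, (L.map (MulAut.conj g).toMonoidHom).relIndex L ≠ 0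

/-- `L` almost commutes with compacts. -/
def CommutesWithCompacts [TopologicalSpace Γ] (L : Subgroup Γ) : Prop :=
  ∀ C : Set Γ, IsCompact C → ∃ C' : Set Γ, IsCompact C' ∧
    C * (L : Set Γ) ⊆ (L : Set Γ) * C' ∧ (L : Set Γ) * C ⊆ C' * (L : Set Γ)

lemma finite_cover {L : Subgroup Γ} (h : Commensurated L) (g : Γ) :
    ∃ F : Finset Γ, (∀ f ∈ F, f ∈ L) ∧ ∀ l ∈ L, ∃ f ∈ F, g * l * f⁻¹ * g⁻¹ ∈ L := by
  classical
  set H : Subgroup L := (L.map (MulAut.conj g⁻¹).toMonoidHom).subgroupOf L with hH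
  have hi : H.index ≠ 0 := h g⁻¹
  have : H.FiniteIndex := ⟨hi⟩
  have : Finite (L ⧸ H) := inferInstance
  have := Fintype.ofFinite (L ⧸ H)
  refine ⟨(Finset.univ : Finset (L ⧸ H)).image (fun q => ((Quotient.out q : L) : Γ)⁻¹), ?_, ?_⟩
  · intro f hf
    rw [Finset.mem_image] at hf
    obtain ⟨q, _, rfl⟩ := hf
    exact L.inv_mem (Quotient.out q : L).2
  · intro l hl
    set l' : L := ⟨l, hl⟩
    set q : L ⧸ H := QuotientGroup.mk (l'⁻¹) with hq
    refine ⟨((Quotient.out q : L) : Γ)⁻¹, Finset.mem_image.2 ⟨q, Finset.mem_univ _, rfl⟩, ?_⟩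
    have h1 : (QuotientGroup.mk (l'⁻¹) : L ⧸ H) = QuotientGroup.mk (Quotient.out q) := by
      rw [← hq]; exact (Quotient.out_eq' q).symm
    rw [QuotientGroup.eq] at h1
    have h1b := Subgroup.mem_subgroupOf.1 h1
    rw [Subgroup.mem_map] at h1b
    obtain ⟨x, hx, hx'⟩ := h1b
    have h2 : g⁻¹ * x * g = l * ((Quotient.out q : L) : Γ) := by
      have : (MulAut.conj g⁻¹).toMonoidHom x = g⁻¹ * x * g := by simp
      rw [← this, hx']
      simp [l']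
    have h3 : g * l * (((Quotient.out q : L) : Γ)⁻¹)⁻¹ * g⁻¹ = x := by
      rw [inv_inv, mul_assoc g l, ← h2]; group
    rw [h3]
    exact hx

/-- `g` has `n` elements of `L` which are pairwise inequivalent. -/
def Q (L : Subgroup Γ) (n : ℕ) (g : Γ) : Prop :=
  ∃ S : Finset Γ, (∀ x ∈ S, x ∈ L) ∧ S.card = n ∧
    ∀ x ∈ S, ∀ y ∈ S, x ≠ y → g * x * y⁻¹ * g⁻¹ ∉ L

lemma not_Q_of_cover {L : Subgroup Γ} (g : Γ) (F : Finset Γ)
    (h : ∀ l ∈ L, ∃ f ∈ F, g * l * f⁻¹ * g⁻¹ ∈ L) : ¬ Q L (F.card + 1) g := by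
  classical
  rintro ⟨S, hS, hc, hne⟩
  choose! φ hφ hφ' using h
  have hmaps : ∀ x ∈ S, φ x ∈ F := fun x hx => hφ x (hS x hx)
  obtain ⟨x, hx, y, hy, hxy, he⟩ :=
    Finset.exists_ne_map_eq_of_card_lt_of_maps_to (by omega : F.card < S.card) hmaps
  refine hne x hx y hy hxy ?_
  have h1 := hφ' x (hS x hx)
  have h2 := L.inv_mem (hφ' y (hS y hy))
  have h3 := L.mul_mem h1 h2
  rw [he] at h3
  convert h3 using 1
  group

lemma isOpen_Q [TopologicalSpace Γ] [IsTopologicalGroup Γ] {L : Subgroup Γ}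
    (hL : IsClosed (L : Set Γ)) (S : Finset Γ) :
    IsOpen {g : Γ | ∀ x ∈ S, ∀ y ∈ S, x ≠ y → g * x * y⁻¹ * g⁻¹ ∉ L} := by
  have : {g : Γ | ∀ x ∈ S, ∀ y ∈ S, x ≠ y → g * x * y⁻¹ * g⁻¹ ∉ L} =
      ⋂ x ∈ S, ⋂ y ∈ S, {g : Γ | x ≠ y → g * x * y⁻¹ * g⁻¹ ∉ L} := by
    ext g; simp
  rw [this]
  refine isOpen_biInter_finset fun x _ => isOpen_biInter_finset fun y _ => ?_
  by_cases hxy : x = y
  · simp [hxy]
  · have h2 : {g : Γ | x ≠ y → g * x * y⁻¹ * g⁻¹ ∉ L} =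
        (fun g : Γ => g * x * y⁻¹ * g⁻¹) ⁻¹' (L : Set Γ)ᶜ := by
      ext g; simp [hxy]
    rw [h2]
    exact hL.isOpen_compl.preimage (by fun_prop)

lemma isOpen_Q' [TopologicalSpace Γ] [IsTopologicalGroup Γ] {L : Subgroup Γ}
    (hL : IsClosed (L : Set Γ)) (n : ℕ) : IsOpen {g : Γ | Q L n g} := by
  have : {g : Γ | Q L n g} = ⋃ S ∈ {S : Finset Γ | (∀ x ∈ S, x ∈ L) ∧ S.card = n},
      {g : Γ | ∀ x ∈ S, ∀ y ∈ S, x ≠ y → g * x * y⁻¹ * g⁻¹ ∉ L} := by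
    ext g
    simp only [Q, mem_ofPred_eq, mem_iUnion, exists_prop]
    constructor
    · rintro ⟨S, h1, h2, h3⟩; exact ⟨S, ⟨h1, h2⟩, h3⟩
    · rintro ⟨S, ⟨h1, h2⟩, h3⟩; exact ⟨S, h1, h2, h3⟩
  rw [this]
  exact isOpen_biUnion fun S _ => isOpen_Q hL S

/-- some compact set with nonempty interior is moved in the right way. -/
lemma local_compact [TopologicalSpace Γ] [IsTopologicalGroup Γ] [LocallyCompactSpace Γ]
    [T2Space Γ] {L : Subgroup Γ} (hL : IsClosed (L : Set Γ)) (hc : Commensurated L) :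
    ∃ K₀ K : Set Γ, IsCompact K₀ ∧ (interior K₀).Nonempty ∧ IsCompact K ∧
      ∀ g ∈ K₀, ∀ l ∈ L, ∃ m ∈ L, ∃ k ∈ K, g * l = m * k := by
  classical
  have hE : ∀ n : ℕ, IsClosed {g : Γ | ¬ Q L (n + 1) g} := fun n =>
    (isOpen_Q' hL (n + 1)).isClosed_compl
  have hU : (⋃ n : ℕ, {g : Γ | ¬ Q L (n + 1) g}) = univ := by
    rw [eq_univ_iff_forall]
    intro g
    obtain ⟨F, _, hF⟩ := finite_cover hc g
    exact mem_iUnion.2 ⟨F.card, not_Q_of_cover g F hF⟩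
  have hex : ∃ n : ℕ, (interior {g : Γ | ¬ Q L (n + 1) g}).Nonempty :=
    nonempty_interior_of_iUnion_of_closed hE hU
  obtain ⟨n, hn, hmin⟩ : ∃ n : ℕ, (interior {g : Γ | ¬ Q L (n + 1) g}).Nonempty ∧
      ∀ m < n, ¬ (interior {g : Γ | ¬ Q L (m + 1) g}).Nonempty :=
    ⟨Nat.find hex, Nat.find_spec hex, fun m hm => Nat.find_min hex hm⟩
  have hg₀ : ∃ g₀ ∈ interior {g : Γ | ¬ Q L (n + 1) g}, Q L n g₀ := by
    rcases Nat.eq_zero_or_pos n with rfl | hpos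
    · obtain ⟨g₀, hg₀⟩ := hn
      exact ⟨g₀, hg₀, ∅, by simp, by simp, by simp⟩
    · by_contra hcon
      push Not at hcon
      refine hmin (n - 1) (by omega) ?_
      obtain ⟨g₀, hg₀⟩ := hn
      refine ⟨g₀, ?_⟩
      rw [mem_interior]
      refine ⟨interior {g : Γ | ¬ Q L (n + 1) g}, ?_, isOpen_interior, hg₀⟩
      intro g hg
      have := hcon g hg
      rwa [mem_ofPred_eq, Nat.sub_add_cancel hpos]
  obtain ⟨g₀, hg₀, S, hSL, hScard, hS⟩ := hg₀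
  have hVopen := isOpen_Q hL S
  set V : Set Γ := {g : Γ | ∀ x ∈ S, ∀ y ∈ S, x ≠ y → g * x * y⁻¹ * g⁻¹ ∉ L} with hV
  have hW : V ∩ interior {g : Γ | ¬ Q L (n + 1) g} ∈ 𝓝 g₀ :=
    (hVopen.inter isOpen_interior).mem_nhds ⟨hS, hg₀⟩
  obtain ⟨K₀, hK₀n, hK₀s, hK₀⟩ := local_compact_nhds hW
  refine ⟨K₀, ⋃ x ∈ S, (fun g => g * x) '' K₀, hK₀, ⟨g₀, mem_interior_iff_mem_nhds.2 hK₀n⟩,
    S.isCompact_biUnion fun x _ => hK₀.image (by fun_prop), ?_⟩
  intro g hg l hl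
  obtain ⟨hgV, hgE⟩ := hK₀s hg
  have hgE' : ¬ Q L (n + 1) g := interior_subset hgE
  have : ∃ x ∈ S, g * l * x⁻¹ * g⁻¹ ∈ L := by
    by_contra hcon
    push Not at hcon
    apply hgE'
    have hlS : l ∉ S := by
      intro hlS
      apply hcon l hlS
      have : g * l * l⁻¹ * g⁻¹ = 1 := by group
      rw [this]; exact L.one_mem
    refine ⟨insert l S, ?_, ?_, ?_⟩
    · intro x hx
      rcases Finset.mem_insert.1 hx with rfl | hx
      · exact hl
      · exact hSL x hx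
    · rw [Finset.card_insert_of_notMem hlS, hScard]
    · intro x hx y hy hxy
      rcases Finset.mem_insert.1 hx with hxl | hxS
      · rcases Finset.mem_insert.1 hy with hyl | hyS
        · exact absurd (hxl.trans hyl.symm) hxy
        · rw [hxl]; exact hcon y hyS
      · rcases Finset.mem_insert.1 hy with hyl | hyS
        · intro hmem
          apply hcon x hxS
          have := L.inv_mem hmem
          rw [hyl] at this
          convert this using 1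
          group
        · exact hgV x hxS y hyS hxy
  obtain ⟨x, hx, hmem⟩ := this
  refine ⟨_, hmem, g * x, ?_, by group⟩
  exact mem_biUnion hx ⟨g, hg, rfl⟩

lemma one_side [TopologicalSpace Γ] [IsTopologicalGroup Γ] [LocallyCompactSpace Γ]
    [T2Space Γ] {L : Subgroup Γ} (hL : IsClosed (L : Set Γ)) (hc : Commensurated L)
    (C : Set Γ) (hC : IsCompact C) :
    ∃ C' : Set Γ, IsCompact C' ∧ C * (L : Set Γ) ⊆ (L : Set Γ) * C' := by
  classical
  obtain ⟨K₀, K, hK₀, ⟨g₀, hg₀⟩, hK, hmove⟩ := local_compact hL hc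
  -- cover `C` by translates of `K₀`
  have hcov : ∃ T : Finset Γ, C ⊆ ⋃ h ∈ T, (fun g => h⁻¹ * g) ⁻¹' (interior K₀) := by
    refine hC.elim_finite_subcover (fun h : Γ => (fun g => h⁻¹ * g) ⁻¹' (interior K₀))
      (fun h => isOpen_interior.preimage (by fun_prop)) ?_
    intro c _
    refine mem_iUnion.2 ⟨c * g₀⁻¹, ?_⟩
    change (c * g₀⁻¹)⁻¹ * c ∈ interior K₀
    have : (c * g₀⁻¹)⁻¹ * c = g₀ := by group
    rwa [this]
  obtain ⟨T, hT⟩ := hcov
  choose F hF hF' using fun h : Γ => finite_cover hc h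
  refine ⟨⋃ h ∈ T, ⋃ f ∈ F h, (fun k => h * f * k) '' K,
    T.isCompact_biUnion fun h _ => (F h).isCompact_biUnion fun f _ => hK.image (by fun_prop), ?_⟩
  rintro _ ⟨c, hc', l, hl, rfl⟩
  obtain ⟨h, hhT, hh⟩ : ∃ h ∈ T, h⁻¹ * c ∈ interior K₀ := by
    have := hT hc'
    simpa using this
  obtain ⟨m, hm, k, hk, he⟩ := hmove _ (interior_subset hh) l hl
  obtain ⟨f, hf, hmem⟩ := hF' h m hm
  refine ⟨_, hmem, h * f * k, ?_, ?_⟩
  · exact mem_biUnion hhT (mem_biUnion hf ⟨k, hk, rfl⟩)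
  · have h1 : c * l = h * (h⁻¹ * c * l) := by group
    change h * m * f⁻¹ * h⁻¹ * (h * f * k) = c * l
    rw [h1, he]; group

/-- **Q1 has a positive answer**: every closed commensurated subgroup of a locally compact
Hausdorff group almost commutes with compacts. -/
theorem result (Γ : Type u) [Group Γ] [TopologicalSpace Γ] [IsTopologicalGroup Γ]
    [LocallyCompactSpace Γ] [T2Space Γ] (L : Subgroup Γ) (hL : IsClosed (L : Set Γ))
    (hc : Commensurated L) : CommutesWithCompacts L := by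
  intro C hC
  obtain ⟨C₁, hC₁, h₁⟩ := one_side hL hc C hC
  obtain ⟨C₂, hC₂, h₂⟩ := one_side hL hc C⁻¹ hC.inv
  refine ⟨C₁ ∪ C₂⁻¹, hC₁.union hC₂.inv, ?_, ?_⟩
  · exact h₁.trans (mul_subset_mul_left subset_union_left)
  · rintro _ ⟨l, hl, c, hc', rfl⟩
    have : c⁻¹ * l⁻¹ ∈ C⁻¹ * (L : Set Γ) :=
      mul_mem_mul (inv_mem_inv.2 hc') (L.inv_mem hl)
    obtain ⟨m, hm, k, hk, he⟩ := h₂ this
    refine ⟨k⁻¹, Or.inr (inv_mem_inv.2 hk), m⁻¹, L.inv_mem hm, ?_⟩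
    have he' : m * k = c⁻¹ * l⁻¹ := he
    change k⁻¹ * m⁻¹ = l * c
    rw [← mul_inv_rev, he']; group

end Pool.Agent.Results.MP_5bfb0a_al.AlmostCommutes
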